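import Pool.Agent.TH204.WR.W14
import Pool.Agent.TH204.TP.P6

/-!
Windows of a quadratic polynomial on which it takes values up to `Y`, for almost all shifts.
-/

set_option autoImplicit false

namespace Pool.Agent.TH204.QF

open Finset Polynomial Filter
open Pool.Agent.TH204.WR (rho hh evt_log_ge evt_log_pow both rt)
open Pool.Agent.TH892.SW (wt)

lemma rt_one (x : ℕ) : rt 1 x ^ 1 = √x := by
  unfold rt
  rw [pow_one, Real.sqrt_eq_rpow]
  norm_num

/-- lower bound for the number of primes in one window -/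
theorem win (F : ℤ[X]) (hF : F.natDegree = 2) (U : ℕ) :
    ∃ B X0 : ℕ, ∀ x : ℕ, X0 ≤ x → ∃ Bad : Finset ℤ, (#Bad : ℝ) ≤ x / Real.log x ^ U ∧
    ∀ t : ℤ, |t| ≤ x → t ∉ Bad → (∀ p : ℕ, p.Prime → rho F t p < p) →
    ∀ (a : ℤ) (H : ℕ) (Y : ℝ), Real.log x ^ B ≤ H → Y ≤ 100 * (H * √x) → Y ≤ x →
    (∀ m ∈ Ioc a (a + H), 2 ≤ F.eval m + t ∧ ((F.eval m + t : ℤ) : ℝ) ≤ Y) →
      100 * H / Real.log x ^ 2 ≤ (#((Ioc a (a + H)).filter (fun m => (F.eval m + t).natAbs.Prime)) : ℝ) := by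
  obtain ⟨B, X0, h⟩ := both 1 (by norm_num) F hF U 2 (1 / 2) (by norm_num)
  obtain ⟨X1, hX1⟩ := Pool.Agent.TH204.TP.hh_low (B + 1)
  obtain ⟨X2, hX2⟩ := eventually_atTop.1 (evt_log_ge (10 ^ 40))
  obtain ⟨X3, hX3⟩ := eventually_atTop.1 (evt_log_pow (3 * (B + 1)) 1 (by norm_num))
  refine ⟨B, max (max X0 X1) (max X2 X3), fun x hx => ?_⟩
  obtain ⟨Bad, -, hB2, hB3⟩ := h x (le_trans (le_trans (le_max_left _ _) (le_max_left _ _)) hx)
  have g1 := hX1 x (le_trans (le_trans (le_max_right _ _) (le_max_left _ _)) hx)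
  have g2 := hX2 x (le_trans (le_trans (le_max_left _ _) (le_max_right _ _)) hx)
  have g3 := hX3 x (le_trans (le_trans (le_max_right _ _) (le_max_right _ _)) hx)
  clear hX1 hX2 hX3 h
  refine ⟨Bad, hB2, fun t ht htB hr a H Y hH hY1 hY2 hv => ?_⟩
  rw [abs_le] at ht
  obtain ⟨L, hL⟩ : ∃ L, L = Real.log x := ⟨_, rfl⟩
  rw [← hL] at g1 g2 g3 hH hB3 ⊢
  rw [Real.rpow_one] at g3
  have hL0 : 0 < L := lt_of_lt_of_le (by norm_num) g2
  have hL1 : (1 : ℝ) ≤ L := le_trans (by norm_num) g2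
  have hLB : 1 ≤ L ^ B := one_le_pow₀ hL1
  have hx0 : (0 : ℝ) < x := lt_of_lt_of_le (by positivity) g3
  -- the level
  obtain ⟨z, hz⟩ : ∃ z, z = ⌈L ^ B⌉₊ := ⟨_, rfl⟩
  have hz1 : L ^ B ≤ z := by rw [hz]; exact Nat.le_ceil _
  have hz2 : (z : ℝ) ≤ L ^ (B + 1) := by
    have := Nat.ceil_lt_add_one (show 0 ≤ L ^ B by positivity)
    rw [← hz] at this
    have h2 : (2 : ℝ) ≤ L := le_trans (by norm_num) g2
    calc (z : ℝ) ≤ L ^ B + 1 := this.le
      _ ≤ L ^ B * 2 := by linarith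
      _ ≤ L ^ B * L := mul_le_mul_of_nonneg_left h2 (by positivity)
      _ = L ^ (B + 1) := by ring
  have hz3 : z ^ 3 ≤ x := by
    have : (z : ℝ) ^ 3 ≤ x := by
      calc (z : ℝ) ^ 3 ≤ (L ^ (B + 1)) ^ 3 := pow_le_pow_left₀ (Nat.cast_nonneg _) hz2 3
        _ = L ^ (3 * (B + 1)) := by rw [← pow_mul]; ring_nf
        _ ≤ x := g3
    exact_mod_cast this
  have hz4 : 1 ≤ z := by
    have : (1 : ℝ) ≤ z := hLB.trans hz1
    exact_mod_cast this
  obtain ⟨_, hw⟩ := hB3 t (mem_Icc.2 ht) htB hr z hz1 hz3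
  have hlow := g1 z hz4 hz2 F t (by omega) (fun p hp => hr p (Pool.Agent.H373R2.T7.mem_pz.1 hp).2)
  have hH1 : (1 : ℝ) ≤ H := hLB.trans hH
  have hHz : (0 : ℤ) < H := by
    have : (0 : ℝ) < H := by linarith
    exact_mod_cast this
  have hsx : 0 ≤ √(x : ℝ) := Real.sqrt_nonneg _
  have hlen : (((a + (H : ℤ) : ℤ) : ℝ)) - a = H := by push_cast; ring
  have hw2 := (hw a (a + H) (by linarith) (fun m hm => by
    obtain ⟨h1, h2⟩ := hv m hm
    refine ⟨h1, h2.trans (hY1.trans ?_)⟩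
    rw [hlen, rt_one]
    have h3 : (100 : ℝ) ≤ L ^ 2 := by nlinarith
    have h4 : 0 ≤ (H : ℝ) * √x := by positivity
    calc 100 * ((H : ℝ) * √x) = (H * √x) * 100 := by ring
      _ ≤ (H * √x) * L ^ 2 := mul_le_mul_of_nonneg_left h3 h4
      _ = _ := by ring)).1 (by rw [hlen]; exact hH)
  -- the main term
  have hsum : (H : ℝ) / L ≤ ∑ m ∈ Ioc a (a + (H : ℤ)), wt (F.eval m + t).natAbs := by
    have h1 : ∀ m ∈ Ioc a (a + (H : ℤ)), 1 / L ≤ wt (F.eval m + t).natAbs := by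
      intro m hm
      obtain ⟨h1, h2⟩ := hv m hm
      unfold wt
      have h4 : (((F.eval m + t).natAbs : ℕ) : ℤ) = F.eval m + t := by omega
      have h5 : (((F.eval m + t).natAbs : ℕ) : ℝ) = ((F.eval m + t : ℤ) : ℝ) := by
        rw [← h4]
        simp
      rw [h5]
      have h6 : (2 : ℝ) ≤ ((F.eval m + t : ℤ) : ℝ) := by exact_mod_cast h1
      have h7 : 0 < Real.log ((F.eval m + t : ℤ) : ℝ) := Real.log_pos (by linarith)
      apply one_div_le_one_div_of_le h7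
      rw [hL]
      exact Real.log_le_log (by linarith) (h2.trans hY2)
    have h2 := card_nsmul_le_sum _ _ _ h1
    rw [Int.card_Ioc] at h2
    have h3 : (a + (H : ℤ) - a).toNat = H := by omega
    rw [h3, nsmul_eq_mul] at h2
    calc (H : ℝ) / L = H * (1 / L) := by ring
      _ ≤ _ := h2
  have hHL : 0 ≤ (H : ℝ) / L := by positivity
  have hprod : 1 / (3000000 * √L) * ((H : ℝ) / L) ≤
      hh F t z * ∑ m ∈ Ioc a (a + (H : ℤ)), wt (F.eval m + t).natAbs := by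
    apply mul_le_mul hlow hsum hHL
    exact le_trans (by positivity) hlow
  have hmain : (1 / 2) * (1 / (3000000 * √L) * ((H : ℝ) / L)) ≤
      (#((Ioc a (a + (H : ℤ))).filter (fun m => (F.eval m + t).natAbs.Prime)) : ℝ) := by
    have := (abs_le.1 hw2).1
    linarith
  refine le_trans ?_ hmain
  have hsq : √L * √L = L := Real.mul_self_sqrt hL0.le
  have hs0 : 0 < √L := Real.sqrt_pos.2 hL0
  have hs1 : (600000000 : ℝ) ≤ √L := by
    apply Real.le_sqrt_of_sq_le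
    refine le_trans ?_ g2
    norm_num
  rw [div_le_iff₀ (by positivity)]
  have e : 1 / 2 * (1 / (3000000 * √L) * ((H : ℝ) / L)) * L ^ 2 = (H : ℝ) * √L / 6000000 := by
    have : L ^ 2 = L * (√L * √L) := by rw [hsq]; ring
    rw [this]
    field_simp
    norm_num
  rw [e, le_div_iff₀ (by norm_num)]
  have : (H : ℝ) * 600000000 ≤ H * √L := mul_le_mul_of_nonneg_left hs1 (by linarith)
  linarith

end Pool.Agent.TH204.QF
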