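import Pool.Agent.TH204.QF.Q1

/-!
The polynomials `±((m₀ + n u)² - d) / n`.
-/

set_option autoImplicit false

namespace Pool.Agent.TH204.QF

open Finset Polynomial Filter
open Pool.Agent.TH204.WR (rho)

lemma rho_lt (F : ℤ[X]) (k : ℤ) (p : ℕ) (hp : p.Prime) (h : ∃ m : ℤ, ¬ (p : ℤ) ∣ F.eval m + k) :
    rho F k p < p := by
  obtain ⟨m, hm⟩ := h
  have hp0 : (0 : ℤ) < p := by exact_mod_cast hp.pos
  unfold rho
  have hlt : (m % p).toNat < p := by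
    have h1 := Int.emod_nonneg m hp0.ne'
    have h2 := Int.emod_lt_of_pos m hp0
    omega
  have hcast : (((m % p).toNat : ℕ) : ℤ) = m % p := Int.toNat_of_nonneg (Int.emod_nonneg m hp0.ne')
  have hss : (range p).filter (fun a : ℕ => (p : ℤ) ∣ F.eval (a : ℤ) + k) ⊂ range p := by
    rw [filter_ssubset]
    refine ⟨(m % p).toNat, mem_range.2 hlt, ?_⟩
    intro hd
    rw [hcast] at hd
    apply hm
    have h1 : (p : ℤ) ∣ m - m % p := Int.dvd_self_sub_emod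
    have h2 : (m - m % p) ∣ F.eval m - F.eval (m % p) := Polynomial.sub_dvd_eval_sub m (m % p) F
    have h3 := dvd_add (h1.trans h2) hd
    have e : F.eval m - F.eval (m % p) + (F.eval (m % p) + k) = F.eval m + k := by ring
    rwa [e] at h3
  have := card_lt_card hss
  rwa [card_range] at this

/-- `s (n u² + 2 m₀ u)` -/
noncomputable def FF (n : ℕ) (m0 s : ℤ) : ℤ[X] := C (s * n) * X ^ 2 + C (2 * s * m0) * X + C 0

lemma FF_eval (n : ℕ) (m0 s u : ℤ) : (FF n m0 s).eval u = s * (n * u ^ 2 + 2 * m0 * u) := by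
  unfold FF
  simp only [eval_add, eval_mul, eval_C, eval_pow, eval_X]
  ring

lemma FF_deg (n : ℕ) (hn : 0 < n) (m0 s : ℤ) (hs : s = 1 ∨ s = -1) : (FF n m0 s).natDegree = 2 := by
  unfold FF
  apply natDegree_quadratic
  have hn0 : (n : ℤ) ≠ 0 := by exact_mod_cast hn.ne'
  rcases hs with rfl | rfl
  · simpa using hn0
  · simpa using hn0

lemma FF_key (n : ℕ) (m0 s k u : ℤ) (d : ℕ) (hk : (n : ℤ) * k = m0 ^ 2 - d) :
    (n : ℤ) * ((FF n m0 s).eval u + s * k) = s * ((m0 + n * u) ^ 2 - d) := by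
  rw [FF_eval]
  linear_combination s * hk

/-- no local obstruction -/
lemma adm (n : ℕ) (hn : Odd n) (m0 s k : ℤ) (hs : s = 1 ∨ s = -1) (d : ℕ) (hd : Squarefree d)
    (hk : (n : ℤ) * k = m0 ^ 2 - d) (p : ℕ) (hp : p.Prime) :
    ∃ u : ℤ, ¬ (p : ℤ) ∣ (FF n m0 s).eval u + s * k := by
  by_contra hc
  push Not at hc
  have h : ∀ u : ℤ, (p : ℤ) ∣ n * u ^ 2 + 2 * m0 * u + k := by
    intro u
    have h1 := hc u
    rw [FF_eval] at h1
    have h2 := h1.mul_left s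
    have hss : s * s = 1 := by rcases hs with rfl | rfl <;> norm_num
    have e : s * (s * (n * u ^ 2 + 2 * m0 * u) + s * k) = n * u ^ 2 + 2 * m0 * u + k := by
      linear_combination (n * u ^ 2 + 2 * m0 * u + k) * hss
    rwa [e] at h2
  have hk0 : (p : ℤ) ∣ k := by simpa using h 0
  have h1 : (p : ℤ) ∣ n + 2 * m0 := by
    have := dvd_sub (h 1) hk0
    have e : (n : ℤ) * 1 ^ 2 + 2 * m0 * 1 + k - k = n + 2 * m0 := by ring
    rwa [e] at this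
  have h2 : (p : ℤ) ∣ n - 2 * m0 := by
    have := dvd_sub (h (-1)) hk0
    have e : (n : ℤ) * (-1) ^ 2 + 2 * m0 * (-1) + k - k = n - 2 * m0 := by ring
    rwa [e] at this
  have hpz : Prime (p : ℤ) := Nat.prime_iff_prime_int.1 hp
  have hp2 : p ≠ 2 := by
    rintro rfl
    obtain ⟨j, hj⟩ := hn
    obtain ⟨i, hi⟩ := h1
    push_cast at hi
    omega
  have hcop : ¬ (p : ℤ) ∣ 2 := by
    intro h3
    have h4 : p ∣ 2 := by exact_mod_cast h3
    exact hp2 ((Nat.prime_dvd_prime_iff_eq hp Nat.prime_two).1 h4)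
  have hpn : (p : ℤ) ∣ n := by
    have h3 := dvd_add h1 h2
    have e : (n : ℤ) + 2 * m0 + (n - 2 * m0) = 2 * n := by ring
    rw [e] at h3
    exact (hpz.dvd_or_dvd h3).resolve_left hcop
  have hpm : (p : ℤ) ∣ m0 := by
    have h3 := dvd_sub h1 hpn
    have e : (n : ℤ) + 2 * m0 - n = 2 * m0 := by ring
    rw [e] at h3
    exact (hpz.dvd_or_dvd h3).resolve_left hcop
  have h5 : (p : ℤ) * p ∣ d := by
    have h6 : (p : ℤ) * p ∣ n * k := mul_dvd_mul hpn hk0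
    have h7 : (p : ℤ) * p ∣ m0 ^ 2 := by rw [sq]; exact mul_dvd_mul hpm hpm
    have e : (d : ℤ) = m0 ^ 2 - n * k := by linarith
    rw [e]
    exact dvd_sub h7 h6
  have h6 : p * p ∣ d := by exact_mod_cast h5
  have h7 := hd p h6
  exact hp.one_lt.ne' (Nat.isUnit_iff.1 h7)

/-- the arguments `m > 0`, `m = m₀ (mod n)` with `s (m² - d) = n q`, `q ≤ Y` prime -/
def SS (n : ℕ) (m0 s : ℤ) (d : ℕ) (Y : ℝ) : Set ℕ :=
  {m : ℕ | 0 < m ∧ (n : ℤ) ∣ (m : ℤ) - m0 ∧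
    ∃ q : ℕ, q.Prime ∧ (q : ℝ) ≤ Y ∧ s * ((m : ℤ) ^ 2 - d) = n * q}

lemma SS_fin (n : ℕ) (m0 s : ℤ) (hs : s = 1 ∨ s = -1) (d : ℕ) (Y : ℝ) : (SS n m0 s d Y).Finite := by
  refine (Set.finite_Iic (d + n * ⌊Y⌋₊)).subset ?_
  rintro m ⟨hm, -, q, hq, hqY, he⟩
  have h1 : q ≤ ⌊Y⌋₊ := Nat.le_floor hqY
  have h2 : n * q ≤ n * ⌊Y⌋₊ := Nat.mul_le_mul_left _ h1
  have h3 : m ≤ m ^ 2 := Nat.le_self_pow (by norm_num) m
  have h4 : ((m : ℤ)) ^ 2 ≤ d + n * q := by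
    have hnq : (0 : ℤ) ≤ n * q := by positivity
    rcases hs with rfl | rfl
    · linarith
    · linarith
  have h5 : m ^ 2 ≤ d + n * q := by exact_mod_cast h4
  rw [Set.mem_Iic]
  omega

lemma to_SS (n : ℕ) (hn : 0 < n) (m0 s k : ℤ) (hs : s = 1 ∨ s = -1) (d : ℕ)
    (hk : (n : ℤ) * k = m0 ^ 2 - d) (Y : ℝ) (a : ℤ) (H : ℕ)
    (hv : ∀ u ∈ Ioc a (a + H), 2 ≤ (FF n m0 s).eval u + s * k ∧ (((FF n m0 s).eval u + s * k : ℤ) : ℝ) ≤ Y)
    (hw : ∀ u ∈ Ioc a (a + (H : ℤ)), 0 < m0 + n * u) :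
    #((Ioc a (a + H)).filter (fun u => ((FF n m0 s).eval u + s * k).natAbs.Prime)) ≤ (SS n m0 s d Y).ncard := by
  classical
  have hinj : Set.InjOn (fun u : ℤ => (m0 + n * u).toNat)
      ((Ioc a (a + (H : ℤ))).filter (fun u => ((FF n m0 s).eval u + s * k).natAbs.Prime) : Set ℤ) := by
    intro u hu u' hu' he
    rw [coe_filter, Set.mem_setOf_eq] at hu hu'
    have h1 := hw u hu.1
    have h2 := hw u' hu'.1
    have he' : (m0 + n * u).toNat = (m0 + n * u').toNat := he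
    have h3 : m0 + n * u = m0 + n * u' := by omega
    have h4 : (n : ℤ) * u = n * u' := by linarith
    exact mul_left_cancel₀ (by exact_mod_cast hn.ne') h4
  have h1 := Set.ncard_image_of_injOn hinj
  rw [Set.ncard_coe_finset] at h1
  rw [← h1]
  refine Set.ncard_le_ncard ?_ (SS_fin n m0 s hs d Y)
  rintro m ⟨u, hu, rfl⟩
  rw [coe_filter, Set.mem_setOf_eq] at hu
  obtain ⟨hu1, hu2⟩ := hu
  obtain ⟨h2, h3⟩ := hv u hu1
  have h4 := hw u hu1
  have h5 : (((m0 + n * u).toNat : ℕ) : ℤ) = m0 + n * u := Int.toNat_of_nonneg h4.le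
  have h6 : ((((FF n m0 s).eval u + s * k).natAbs : ℕ) : ℤ) = (FF n m0 s).eval u + s * k := by omega
  refine ⟨by simp only; omega, ?_, ((FF n m0 s).eval u + s * k).natAbs, hu2, ?_, ?_⟩
  · simp only
    rw [h5]
    exact ⟨u, by ring⟩
  · have h7 : ((((FF n m0 s).eval u + s * k).natAbs : ℕ) : ℝ) = (((FF n m0 s).eval u + s * k : ℤ) : ℝ) := by
      rw [← h6]
      simp
    rw [h7]
    exact h3
  · simp only
    rw [h5, h6, FF_key n m0 s k u d hk]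

/-- window above the root -/
lemma win_pos (n : ℕ) (hn : 0 < n) (m0 k : ℤ) (d : ℕ) (hk : (n : ℤ) * k = m0 ^ 2 - d)
    (x H : ℕ) (hdx : d ≤ x) (hnx : n ≤ x) (hH : 1 ≤ H) (hnH : (n : ℝ) * H ≤ √x) :
    ∃ a : ℤ, (∀ u ∈ Ioc a (a + (H : ℤ)), 0 < m0 + n * u) ∧
      ∀ u ∈ Ioc a (a + (H : ℤ)), 2 ≤ (FF n m0 1).eval u + 1 * k ∧
        (((FF n m0 1).eval u + 1 * k : ℤ) : ℝ) ≤ 8 * (H * √x) := by
  have hnr : (0 : ℝ) < n := by exact_mod_cast hn
  obtain ⟨r, hr⟩ : ∃ r : ℝ, r = √((d : ℝ) + n) := ⟨_, rfl⟩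
  have hr0 : 0 ≤ r := by rw [hr]; exact Real.sqrt_nonneg _
  have hrs : r ^ 2 = d + n := by rw [hr]; exact Real.sq_sqrt (by positivity)
  obtain ⟨R, hR⟩ : ∃ R : ℝ, R = √(x : ℝ) := ⟨_, rfl⟩
  rw [← hR] at hnH ⊢
  have hR0 : 0 ≤ R := by rw [hR]; exact Real.sqrt_nonneg _
  have hRs : R ^ 2 = x := by rw [hR]; exact Real.sq_sqrt (by positivity)
  have hrR : r ≤ 2 * R := by
    refine le_of_pow_le_pow_left₀ (n := 2) two_ne_zero (by positivity) ?_
    have h1 : (d : ℝ) ≤ x := by exact_mod_cast hdx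
    have h2 : (n : ℝ) ≤ x := by exact_mod_cast hnx
    have h3 : (0 : ℝ) ≤ x := Nat.cast_nonneg _
    nlinarith
  have hHr : (1 : ℝ) ≤ H := by exact_mod_cast hH
  obtain ⟨a, ha⟩ : ∃ a : ℤ, a = ⌊(r - m0) / n⌋ := ⟨_, rfl⟩
  have ha1 : (a : ℝ) ≤ (r - m0) / n := by rw [ha]; exact Int.floor_le _
  have ha2 : (r - m0) / n < a + 1 := by rw [ha]; exact Int.lt_floor_add_one _
  rw [le_div_iff₀ hnr] at ha1
  rw [div_lt_iff₀ hnr] at ha2
  have hlow : ∀ u ∈ Ioc a (a + (H : ℤ)), r < ((m0 + n * u : ℤ) : ℝ) := by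
    intro u hu
    rw [mem_Ioc] at hu
    have h1 : (a : ℝ) + 1 ≤ u := by exact_mod_cast hu.1
    push_cast
    have := mul_le_mul_of_nonneg_left h1 hnr.le
    linarith
  refine ⟨a, fun u hu => ?_, fun u hu => ?_⟩
  · have h1 := hlow u hu
    have h2 : (0 : ℝ) < ((m0 + n * u : ℤ) : ℝ) := lt_of_le_of_lt hr0 h1
    exact_mod_cast h2
  · have h1 := hlow u hu
    rw [mem_Ioc] at hu
    have h2 : (u : ℝ) ≤ a + H := by exact_mod_cast hu.2
    have h3 : ((m0 + n * u : ℤ) : ℝ) ≤ r + n * H := by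
      push_cast
      have := mul_le_mul_of_nonneg_left h2 hnr.le
      linarith
    obtain ⟨w, hw⟩ : ∃ w : ℝ, w = ((m0 + n * u : ℤ) : ℝ) := ⟨_, rfl⟩
    obtain ⟨v, hv⟩ : ∃ v : ℤ, v = (FF n m0 1).eval u + 1 * k := ⟨_, rfl⟩
    have hkey := FF_key n m0 1 k u d hk
    rw [← hv, one_mul] at hkey
    have hkr : (n : ℝ) * v = w ^ 2 - d := by
      rw [hw]
      exact_mod_cast hkey
    rw [← hw] at h1 h3
    rw [← hv]
    constructor
    · have h4 : r ^ 2 < w ^ 2 := pow_lt_pow_left₀ h1 hr0 (by norm_num)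
      have h5 : (n : ℝ) * 1 < n * v := by rw [hkr]; linarith
      have h6 : (1 : ℝ) < v := lt_of_mul_lt_mul_left h5 hnr.le
      have h7 : (1 : ℤ) < v := by exact_mod_cast h6
      omega
    · have h4 : w ^ 2 ≤ (r + n * H) ^ 2 := pow_le_pow_left₀ (hr0.trans h1.le) h3 2
      have h5 : (n : ℝ) * v ≤ n * (1 + 2 * H * r + H * (n * H)) := by
        rw [hkr]
        nlinarith
      have h6 : (v : ℝ) ≤ 1 + 2 * H * r + H * (n * H) := le_of_mul_le_mul_left h5 hnr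
      have h7 : (H : ℝ) * (n * H) ≤ H * R := mul_le_mul_of_nonneg_left hnH (by linarith)
      have h8 : (H : ℝ) * r ≤ H * (2 * R) := mul_le_mul_of_nonneg_left hrR (by linarith)
      have h9 : (1 : ℝ) ≤ R := by
        have : (1 : ℝ) ≤ n * H := by
          have : 1 ≤ n * H := Nat.mul_pos hn hH
          exact_mod_cast this
        linarith
      have h10 : (1 : ℝ) ≤ H * R := one_le_mul_of_one_le_of_one_le hHr h9
      linarith

/-- window below the root -/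
lemma win_neg (n : ℕ) (hn : 0 < n) (m0 k : ℤ) (d : ℕ) (hk : (n : ℤ) * k = m0 ^ 2 - d)
    (x H : ℕ) (hdx : d ≤ x) (hH : 1 ≤ H) (hnH : (n : ℝ) * H + 2 * n ≤ √((d : ℝ) / 2)) :
    ∃ a : ℤ, (∀ u ∈ Ioc a (a + (H : ℤ)), 0 < m0 + n * u) ∧
      ∀ u ∈ Ioc a (a + (H : ℤ)), 2 ≤ (FF n m0 (-1)).eval u + (-1) * k ∧
        (((FF n m0 (-1)).eval u + (-1) * k : ℤ) : ℝ) ≤ 8 * (H * √x) := by
  have hnr : (0 : ℝ) < n := by exact_mod_cast hn
  have hn1 : (1 : ℝ) ≤ n := by exact_mod_cast hn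
  have hHr : (1 : ℝ) ≤ H := by exact_mod_cast hH
  have hd0 : (0 : ℝ) ≤ d := Nat.cast_nonneg _
  obtain ⟨e, he⟩ : ∃ e : ℝ, e = √((d : ℝ) / 2) := ⟨_, rfl⟩
  have hes : e ^ 2 = d / 2 := by rw [he]; exact Real.sq_sqrt (by positivity)
  rw [← he] at hnH
  have he0 : 0 ≤ e := by rw [he]; exact Real.sqrt_nonneg _
  have hnHp : 0 ≤ (n : ℝ) * H := by positivity
  have hd2 : 2 * (n : ℝ) ≤ d / 2 := by
    rw [← hes]
    nlinarith
  obtain ⟨r, hr⟩ : ∃ r : ℝ, r = √((d : ℝ) - 2 * n) := ⟨_, rfl⟩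
  have hr0 : 0 ≤ r := by rw [hr]; exact Real.sqrt_nonneg _
  have hrs : r ^ 2 = d - 2 * n := by rw [hr]; exact Real.sq_sqrt (by linarith)
  have her : e ≤ r := by
    refine le_of_pow_le_pow_left₀ (n := 2) two_ne_zero hr0 ?_
    rw [hes, hrs]
    linarith
  obtain ⟨R, hR⟩ : ∃ R : ℝ, R = √(x : ℝ) := ⟨_, rfl⟩
  rw [← hR]
  have hR0 : 0 ≤ R := by rw [hR]; exact Real.sqrt_nonneg _
  have hRs : R ^ 2 = x := by rw [hR]; exact Real.sq_sqrt (by positivity)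
  have hrR : r ≤ R := by
    refine le_of_pow_le_pow_left₀ (n := 2) two_ne_zero hR0 ?_
    have h1 : (d : ℝ) ≤ x := by exact_mod_cast hdx
    rw [hrs, hRs]
    linarith
  obtain ⟨b, hb⟩ : ∃ b : ℤ, b = ⌊(r - m0) / n⌋ := ⟨_, rfl⟩
  have hb1 : (b : ℝ) ≤ (r - m0) / n := by rw [hb]; exact Int.floor_le _
  have hb2 : (r - m0) / n < b + 1 := by rw [hb]; exact Int.lt_floor_add_one _
  rw [le_div_iff₀ hnr] at hb1
  rw [div_lt_iff₀ hnr] at hb2
  have hw : ∀ u ∈ Ioc (b - (H : ℤ)) (b - H + (H : ℤ)), r - n * H < ((m0 + n * u : ℤ) : ℝ) ∧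
      ((m0 + n * u : ℤ) : ℝ) ≤ r := by
    intro u hu
    rw [mem_Ioc] at hu
    have h1 : (b : ℝ) - H + 1 ≤ u := by
      have : b - (H : ℤ) + 1 ≤ u := by omega
      exact_mod_cast this
    have h2 : (u : ℝ) ≤ b := by
      have : u ≤ b := by omega
      exact_mod_cast this
    push_cast
    have h3 := mul_le_mul_of_nonneg_left h1 hnr.le
    have h4 := mul_le_mul_of_nonneg_left h2 hnr.le
    constructor
    · linarith
    · linarith
  refine ⟨b - H, fun u hu => ?_, fun u hu => ?_⟩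
  · have h1 := (hw u hu).1
    have h2 : (0 : ℝ) < ((m0 + n * u : ℤ) : ℝ) := by linarith
    exact_mod_cast h2
  · obtain ⟨h1, h2⟩ := hw u hu
    obtain ⟨w, hwd⟩ : ∃ w : ℝ, w = ((m0 + n * u : ℤ) : ℝ) := ⟨_, rfl⟩
    obtain ⟨v, hv⟩ : ∃ v : ℤ, v = (FF n m0 (-1)).eval u + (-1) * k := ⟨_, rfl⟩
    have hkey := FF_key n m0 (-1) k u d hk
    rw [← hv] at hkey
    have hkr : (n : ℝ) * v = d - w ^ 2 := by
      have h3 : (n : ℤ) * v = d - (m0 + n * u) ^ 2 := by rw [hkey]; ring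
      rw [hwd]
      exact_mod_cast h3
    rw [← hwd] at h1 h2
    rw [← hv]
    have hrH : 0 ≤ r - n * H := by linarith
    constructor
    · have h4 : w ^ 2 ≤ r ^ 2 := pow_le_pow_left₀ (hrH.trans h1.le) h2 2
      have h5 : (n : ℝ) * 2 ≤ n * v := by rw [hkr]; linarith
      have h6 : (2 : ℝ) ≤ v := le_of_mul_le_mul_left h5 hnr
      exact_mod_cast h6
    · have h4 : (r - n * H) ^ 2 ≤ w ^ 2 := pow_le_pow_left₀ hrH h1.le 2
      have h5 : (n : ℝ) * v ≤ n * (2 + 2 * H * r) := by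
        rw [hkr]
        nlinarith
      have h6 : (v : ℝ) ≤ 2 + 2 * H * r := le_of_mul_le_mul_left h5 hnr
      have h8 : (H : ℝ) * r ≤ H * R := mul_le_mul_of_nonneg_left hrR (by linarith)
      have h9 : (1 : ℝ) ≤ R := by
        have : (1 : ℝ) ≤ n * H := by
          have : 1 ≤ n * H := Nat.mul_pos hn hH
          exact_mod_cast this
        linarith
      have h10 : (1 : ℝ) ≤ H * R := one_le_mul_of_one_le_of_one_le hHr h9
      linarith

end Pool.Agent.TH204.QF
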