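import Pool.Agent.TH204.QF.Q2

/-!
Primes `±(m² - d)/n` next to the root, for almost all `d`: one class `m₀` modulo `n`, then all.
-/

set_option autoImplicit false

namespace Pool.Agent.TH204.QF

open Finset Polynomial Filter
open Pool.Agent.TH204.WR (rho evt_log_ge evt_log_pow)

/-- the small shifts -/
lemma small_card (x : ℕ) (T : ℝ) (hT : 0 ≤ T) :
    (#((range (x + 1)).filter (fun d : ℕ => (d : ℝ) ≤ T)) : ℝ) ≤ T + 1 := by
  have h1 : (range (x + 1)).filter (fun d : ℕ => (d : ℝ) ≤ T) ⊆ range (⌊T⌋₊ + 1) := by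
    intro d hd
    rw [mem_filter] at hd
    rw [mem_range]
    have := Nat.le_floor hd.2
    omega
  have h2 := card_le_card h1
  rw [card_range] at h2
  have h3 : (#((range (x + 1)).filter (fun d : ℕ => (d : ℝ) ≤ T)) : ℝ) ≤ (⌊T⌋₊ : ℝ) + 1 := by
    exact_mod_cast h2
  have := Nat.floor_le hT
  linarith

/-- real estimates -/
lemma arith (L R x Y n q h D : ℝ) (B0 B U : ℕ) (hB : B = B0 + U + 4) (hn : 1 ≤ n) (hL : 64 * n ≤ L)
    (hR : L ^ (U + 5) ≤ R) (hx : R ^ 2 = x) (hY1 : R * L ^ B ≤ Y) (hY2 : Y ≤ x / L ^ B)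
    (hq : q = Y / (8 * R)) (hh1 : h ≤ q) (hh2 : q < h + 1) (hD : x / L ^ (U + 2) ≤ D) :
    L ^ B0 ≤ h ∧ 1 ≤ h ∧ Y ≤ 16 * (h * R) ∧ 8 * (h * R) ≤ Y ∧ Y ≤ x ∧ n * h ≤ R ∧
      n * h + 2 * n ≤ √(D / 2) := by
  have hL64 : 64 ≤ L := by linarith
  have hL0 : 0 < L := by linarith
  have hL1 : 1 ≤ L := by linarith
  have hLU : 1 ≤ L ^ (U + 5) := one_le_pow₀ hL1
  have hR1 : 1 ≤ R := hLU.trans hR
  have hR0 : 0 < R := by linarith
  have hLB0 : 1 ≤ L ^ B0 := one_le_pow₀ hL1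
  have hLB : L ^ B0 * 64 ≤ L ^ B := by
    rw [hB, pow_add, pow_add]
    have h1 : 1 ≤ L ^ U := one_le_pow₀ hL1
    have h4 : 64 ≤ L ^ 4 := by
      calc (64 : ℝ) ≤ L := hL64
        _ ≤ L ^ 4 := le_self_pow₀ hL1 (by norm_num)
    have h2 : (64 : ℝ) ≤ L ^ U * L ^ 4 := by
      calc (64 : ℝ) = 1 * 64 := by norm_num
        _ ≤ L ^ U * L ^ 4 := mul_le_mul h1 h4 (by norm_num) (by positivity)
    calc L ^ B0 * 64 ≤ L ^ B0 * (L ^ U * L ^ 4) := mul_le_mul_of_nonneg_left h2 (by positivity)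
      _ = _ := by ring
  have hYq : Y = 8 * (q * R) := by rw [hq]; field_simp
  have hq1 : L ^ B / 8 ≤ q := by
    rw [hq, le_div_iff₀ (by positivity)]
    have e : L ^ B / 8 * (8 * R) = R * L ^ B := by ring
    rw [e]
    exact hY1
  have hq8 : 8 * L ^ B0 ≤ q := by linarith
  have hh : q ≤ 2 * h := by linarith
  have hh0 : L ^ B0 ≤ h := by linarith
  have hLBpos : 0 < L ^ B := by positivity
  have hLB1 : 1 ≤ L ^ B := one_le_pow₀ hL1
  have hxpos : 0 < x := by rw [← hx]; positivity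
  have hnh : n * h ≤ R / (8 * 64 * L ^ (U + 3)) := by
    have h1 : h ≤ R / (8 * L ^ B) := by
      refine hh1.trans ?_
      rw [hq, div_le_div_iff₀ (by positivity) (by positivity)]
      rw [le_div_iff₀ hLBpos] at hY2
      have e : Y * (8 * L ^ B) = 8 * (Y * L ^ B) := by ring
      rw [e]
      have e2 : R * (8 * R) = 8 * x := by rw [← hx]; ring
      rw [e2]
      linarith
    have h2 : L ^ (U + 4) ≤ L ^ B := pow_le_pow_right₀ hL1 (by omega)
    have h3 : R / (8 * L ^ B) ≤ R / (8 * L ^ (U + 4)) := by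
      apply div_le_div_of_nonneg_left hR0.le (by positivity)
      linarith
    have h4 : n * h ≤ n * (R / (8 * L ^ (U + 4))) := mul_le_mul_of_nonneg_left (h1.trans h3) (by linarith)
    refine h4.trans ?_
    rw [← mul_div_assoc, div_le_div_iff₀ (by positivity) (by positivity)]
    have e : n * R * (8 * 64 * L ^ (U + 3)) = (8 * R * L ^ (U + 3)) * (64 * n) := by ring
    have e2 : R * (8 * L ^ (U + 4)) = (8 * R * L ^ (U + 3)) * L := by ring
    rw [e, e2]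
    exact mul_le_mul_of_nonneg_left hL (by positivity)
  refine ⟨hh0, hLB0.trans hh0, ?_, ?_, ?_, ?_, ?_⟩
  · rw [hYq]
    have := mul_le_mul_of_nonneg_right hh hR0.le
    linarith
  · rw [hYq]
    have := mul_le_mul_of_nonneg_right hh1 hR0.le
    linarith
  · exact hY2.trans (div_le_self hxpos.le hLB1)
  · refine hnh.trans (div_le_self hR0.le ?_)
    have : 1 ≤ L ^ (U + 3) := one_le_pow₀ hL1
    linarith
  · have h1 : R / (2 * L ^ (U + 2)) ≤ √(D / 2) := by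
      apply Real.le_sqrt_of_sq_le
      have h2 : x / L ^ (U + 2) / 2 ≤ D / 2 := by linarith
      refine le_trans ?_ h2
      rw [div_pow, hx, div_div]
      apply div_le_div_of_nonneg_left hxpos.le (by positivity)
      have h3 : 1 ≤ L ^ (U + 2) := one_le_pow₀ hL1
      nlinarith
    refine le_trans ?_ h1
    have h5 : n * h ≤ R / (4 * L ^ (U + 2)) := by
      refine hnh.trans ?_
      apply div_le_div_of_nonneg_left hR0.le (by positivity)
      have h3 : L ^ (U + 2) ≤ L ^ (U + 3) := pow_le_pow_right₀ hL1 (by omega)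
      have h4 : 0 ≤ L ^ (U + 3) := by positivity
      linarith
    have h6 : 2 * n ≤ R / (4 * L ^ (U + 2)) := by
      rw [le_div_iff₀ (by positivity)]
      refine le_trans ?_ hR
      have e : L ^ (U + 5) = L ^ (U + 2) * (L * (L * L)) := by ring
      rw [e]
      have h7 : 8 * n ≤ L * (L * L) := by nlinarith
      calc 2 * n * (4 * L ^ (U + 2)) = L ^ (U + 2) * (8 * n) := by ring
        _ ≤ _ := mul_le_mul_of_nonneg_left h7 (by positivity)
    have e : R / (2 * L ^ (U + 2)) = R / (4 * L ^ (U + 2)) + R / (4 * L ^ (U + 2)) := by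
      field_simp
      norm_num
    rw [e]
    linarith

theorem per (n : ℕ) (hn : Odd n) (m0 : ℤ) (h0 : 0 ≤ m0) (h1 : m0 < n) (s : ℤ) (hs : s = 1 ∨ s = -1) (U : ℕ) :
    ∃ B X0 : ℕ, ∀ x : ℕ, X0 ≤ x → ∃ Bad : Finset ℕ, (#Bad : ℝ) ≤ x / Real.log x ^ U ∧
    ∀ d : ℕ, d ≤ x → d ∉ Bad → Squarefree d → (n : ℤ) ∣ m0 ^ 2 - d →
    ∀ Y : ℝ, √x * Real.log x ^ B ≤ Y → Y ≤ x / Real.log x ^ B →
      Y / (√x * Real.log x ^ 2) ≤ ((SS n m0 s d Y).ncard : ℝ) := by
  classical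
  have hn0 : 0 < n := hn.pos
  have hnr : (1 : ℝ) ≤ n := by exact_mod_cast hn0
  obtain ⟨B0, X1, hwin⟩ := win (FF n m0 s) (FF_deg n hn0 m0 s hs) (U + 1)
  obtain ⟨X2, hX2⟩ := eventually_atTop.1 (evt_log_ge (64 * n))
  obtain ⟨X3, hX3⟩ := eventually_atTop.1 (evt_log_pow (U + 5) (1 / 2) (by norm_num))
  refine ⟨B0 + U + 4, max (max X1 X2) (max X3 n), fun x hx => ?_⟩
  obtain ⟨Bad0, hB1, hB2⟩ := hwin x (le_trans (le_trans (le_max_left _ _) (le_max_left _ _)) hx)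
  have hL := hX2 x (le_trans (le_trans (le_max_right _ _) (le_max_left _ _)) hx)
  have hR := hX3 x (le_trans (le_trans (le_max_left _ _) (le_max_right _ _)) hx)
  have hnx : n ≤ x := le_trans (le_trans (le_max_right _ _) (le_max_right _ _)) hx
  clear hX2 hX3 hwin
  rw [← Real.sqrt_eq_rpow] at hR
  obtain ⟨L, hLd⟩ : ∃ L, L = Real.log x := ⟨_, rfl⟩
  obtain ⟨R, hRd⟩ : ∃ R : ℝ, R = √(x : ℝ) := ⟨_, rfl⟩
  have hRs : R ^ 2 = x := by rw [hRd]; exact Real.sq_sqrt (Nat.cast_nonneg _)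
  rw [← hLd] at hL hR hB1 hB2
  rw [← hRd] at hR
  rw [← hLd, ← hRd]
  have hL64 : 64 ≤ L := by linarith
  have hL0 : 0 < L := by linarith
  have hL1 : 1 ≤ L := by linarith
  have hR1 : 1 ≤ R := (one_le_pow₀ hL1).trans hR
  have hxL : L ^ (U + 5) ≤ x := by
    rw [← hRs]
    nlinarith
  have hxr : (0 : ℝ) ≤ x := Nat.cast_nonneg _
  refine ⟨(range (x + 1)).filter (fun d : ℕ => (d : ℝ) ≤ x / L ^ (U + 2)) ∪
    Bad0.image (fun t => (m0 ^ 2 - n * (s * t)).toNat), ?_, ?_⟩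
  · have hc : (#((range (x + 1)).filter (fun d : ℕ => (d : ℝ) ≤ x / L ^ (U + 2)) ∪
        Bad0.image (fun t => (m0 ^ 2 - n * (s * t)).toNat)) : ℝ) ≤
        #((range (x + 1)).filter (fun d : ℕ => (d : ℝ) ≤ x / L ^ (U + 2))) +
        #(Bad0.image (fun t => (m0 ^ 2 - n * (s * t)).toNat)) := by
      exact_mod_cast card_union_le _ _
    have hc2 : (#(Bad0.image (fun t => (m0 ^ 2 - n * (s * t)).toNat)) : ℝ) ≤ #Bad0 := by
      exact_mod_cast card_image_le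
    have hc3 := small_card x (x / L ^ (U + 2)) (by positivity)
    have hT : 0 ≤ x / L ^ (U + 1) := by positivity
    have h2 : x / L ^ (U + 2) ≤ x / L ^ (U + 1) := by
      apply div_le_div_of_nonneg_left hxr (by positivity)
      exact pow_le_pow_right₀ hL1 (by omega)
    have h3 : 1 ≤ x / L ^ (U + 1) := by
      rw [one_le_div (by positivity)]
      exact (pow_le_pow_right₀ hL1 (by omega)).trans hxL
    have h4 : 3 * (x / L ^ (U + 1)) ≤ x / L ^ U := by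
      have e : x / L ^ U = L * (x / L ^ (U + 1)) := by
        rw [pow_succ]
        field_simp
      rw [e]
      exact mul_le_mul_of_nonneg_right (by linarith) hT
    linarith
  · intro d hdx hdB hdsq hdn Y hY1 hY2
    rw [mem_union, not_or, mem_filter, not_and, mem_image] at hdB
    obtain ⟨hdB1, hdB2⟩ := hdB
    have hD : x / L ^ (U + 2) ≤ (d : ℝ) := (not_le.1 (hdB1 (mem_range.2 (by omega)))).le
    obtain ⟨k, hk⟩ := hdn
    have hk' : (n : ℤ) * k = m0 ^ 2 - d := hk.symm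
    have hss : s * s = 1 := by rcases hs with rfl | rfl <;> norm_num
    have habs : |s * k| ≤ x := by
      have h2 : |s * k| = |k| := by
        rcases hs with rfl | rfl
        · rw [one_mul]
        · rw [neg_one_mul, abs_neg]
      rw [h2]
      have hnz : (0 : ℤ) < n := by exact_mod_cast hn0
      have h3 : (n : ℤ) * |k| ≤ n * x := by
        rw [← abs_of_pos hnz, ← abs_mul, abs_of_pos hnz, hk', abs_le]
        have h4 : (0 : ℤ) ≤ m0 ^ 2 := sq_nonneg _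
        have h5 : m0 ^ 2 ≤ n * n := by nlinarith
        have h6 : (n : ℤ) * n ≤ n * x := mul_le_mul_of_nonneg_left (by exact_mod_cast hnx) hnz.le
        have h7 : (d : ℤ) ≤ x := by exact_mod_cast hdx
        have h8 : (x : ℤ) ≤ n * x := le_mul_of_one_le_left (by positivity) hnz
        have h9 : (0 : ℤ) ≤ d := by positivity
        constructor
        · linarith
        · linarith
      exact le_of_mul_le_mul_left h3 hnz
    have hnot : s * k ∉ Bad0 := by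
      intro h
      apply hdB2
      refine ⟨s * k, h, ?_⟩
      have e : m0 ^ 2 - (n : ℤ) * (s * (s * k)) = d := by
        have : s * (s * k) = k := by rw [← mul_assoc, hss, one_mul]
        rw [this, hk']
        ring
      rw [e]
      exact Int.toNat_natCast d
    have hr : ∀ p : ℕ, p.Prime → rho (FF n m0 s) (s * k) p < p := fun p hp =>
      rho_lt _ _ p hp (adm n hn m0 s k hs d hdsq hk' p hp)
    obtain ⟨q, hq⟩ : ∃ q, q = Y / (8 * R) := ⟨_, rfl⟩
    have hY0 : 0 ≤ Y := le_trans (by positivity) hY1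
    have hq0 : 0 ≤ q := by rw [hq]; positivity
    obtain ⟨H, hH⟩ : ∃ H, H = ⌊q⌋₊ := ⟨_, rfl⟩
    have hH1 : (H : ℝ) ≤ q := by rw [hH]; exact Nat.floor_le hq0
    have hH2 : q < H + 1 := by rw [hH]; exact Nat.lt_floor_add_one q
    obtain ⟨a1, a2, a3, a4, a5, a6, a7⟩ := arith L R x Y n q H d B0 (B0 + U + 4) U rfl hnr hL hR hRs
      hY1 hY2 hq hH1 hH2 hD
    have hH1' : 1 ≤ H := by exact_mod_cast a2
    have hex : ∃ a : ℤ, (∀ u ∈ Ioc a (a + (H : ℤ)), 0 < m0 + n * u) ∧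
      ∀ u ∈ Ioc a (a + (H : ℤ)), 2 ≤ (FF n m0 s).eval u + s * k ∧
        (((FF n m0 s).eval u + s * k : ℤ) : ℝ) ≤ 8 * (H * √x) := by
      rcases hs with rfl | rfl
      · exact win_pos n hn0 m0 k d hk' x H hdx hnx hH1' (by rw [← hRd]; exact a6)
      · exact win_neg n hn0 m0 k d hk' x H hdx hH1' a7
    obtain ⟨a, ha1, ha2⟩ := hex
    rw [← hRd] at ha2
    have hv : ∀ u ∈ Ioc a (a + (H : ℤ)), 2 ≤ (FF n m0 s).eval u + s * k ∧
        (((FF n m0 s).eval u + s * k : ℤ) : ℝ) ≤ Y := fun u hu => ⟨(ha2 u hu).1, (ha2 u hu).2.trans a4⟩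
    have hcount := hB2 (s * k) habs hnot hr a H Y a1 (by
      rw [← hRd]
      have : 0 ≤ (H : ℝ) * R := by positivity
      linarith) a5 hv
    have hle := to_SS n hn0 m0 s k hs d hk' Y a H hv ha1
    have hle' : (#((Ioc a (a + (H : ℤ))).filter (fun u => ((FF n m0 s).eval u + s * k).natAbs.Prime)) : ℝ) ≤
        ((SS n m0 s d Y).ncard : ℝ) := by exact_mod_cast hle
    refine le_trans ?_ (hcount.trans hle')
    rw [div_le_div_iff₀ (by positivity) (by positivity)]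
    have h5 : Y ≤ 100 * (H * R) := by
      have : 0 ≤ (H : ℝ) * R := by positivity
      linarith
    calc Y * L ^ 2 ≤ 100 * (H * R) * L ^ 2 := mul_le_mul_of_nonneg_right h5 (by positivity)
      _ = _ := by ring

/-- all classes modulo all odd `n ≤ K`, both signs -/
theorem allc (K U : ℕ) : ∃ B X0 : ℕ, ∀ x : ℕ, X0 ≤ x → ∃ Bad : Finset ℕ, (#Bad : ℝ) ≤ x / Real.log x ^ U ∧
    ∀ d : ℕ, d ≤ x → d ∉ Bad → Squarefree d → ∀ n : ℕ, Odd n → n ≤ K → ∀ m0 : ℤ, 0 ≤ m0 → m0 < n →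
      (n : ℤ) ∣ m0 ^ 2 - d → ∀ s : ℤ, s = 1 ∨ s = -1 →
    ∀ Y : ℝ, √x * Real.log x ^ B ≤ Y → Y ≤ x / Real.log x ^ B →
      Y / (√x * Real.log x ^ 2) ≤ ((SS n m0 s d Y).ncard : ℝ) := by
  classical
  have h : ∀ i : ℕ × ℕ × Bool, ∃ B X0 : ℕ, Odd i.1 → i.2.1 < i.1 → ∀ x : ℕ, X0 ≤ x → ∃ Bad : Finset ℕ,
      (#Bad : ℝ) ≤ x / Real.log x ^ (U + 1) ∧
      ∀ d : ℕ, d ≤ x → d ∉ Bad → Squarefree d → (i.1 : ℤ) ∣ (i.2.1 : ℤ) ^ 2 - d →
      ∀ Y : ℝ, √x * Real.log x ^ B ≤ Y → Y ≤ x / Real.log x ^ B →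
        Y / (√x * Real.log x ^ 2) ≤ ((SS i.1 i.2.1 (if i.2.2 then 1 else -1) d Y).ncard : ℝ) := by
    rintro ⟨n, m, b⟩
    by_cases hc : Odd n ∧ m < n
    · obtain ⟨B, X0, h⟩ := per n hc.1 m (by positivity) (by exact_mod_cast hc.2) (if b then 1 else -1)
        (by cases b <;> simp) (U + 1)
      exact ⟨B, X0, fun _ _ => h⟩
    · exact ⟨0, 0, fun h1 h2 => absurd ⟨h1, h2⟩ hc⟩
  choose Bf Xf hf using h
  obtain ⟨I, hI⟩ : ∃ I : Finset (ℕ × ℕ × Bool), I = range (K + 1) ×ˢ (range (K + 1) ×ˢ univ) := ⟨_, rfl⟩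
  obtain ⟨X2, hX2⟩ := eventually_atTop.1 (evt_log_ge (#I + 1))
  refine ⟨I.sup Bf, max (I.sup Xf) X2, fun x hx => ?_⟩
  have g1 : I.sup Xf ≤ x := (le_max_left _ _).trans hx
  have hL := hX2 x ((le_max_right _ _).trans hx)
  clear hX2
  obtain ⟨L, hLd⟩ : ∃ L, L = Real.log x := ⟨_, rfl⟩
  rw [← hLd] at hL ⊢
  have hI0 : (0 : ℝ) ≤ #I := Nat.cast_nonneg _
  have hL1 : 1 ≤ L := by linarith
  have hL0 : 0 < L := by linarith
  have hxr : (0 : ℝ) ≤ x := Nat.cast_nonneg _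
  have hex : ∀ i : ℕ × ℕ × Bool, ∃ Bad : Finset ℕ, (#Bad : ℝ) ≤ x / L ^ (U + 1) ∧
      (i ∈ I → Odd i.1 → i.2.1 < i.1 → ∀ d : ℕ, d ≤ x → d ∉ Bad → Squarefree d →
      (i.1 : ℤ) ∣ (i.2.1 : ℤ) ^ 2 - d →
      ∀ Y : ℝ, √x * L ^ (I.sup Bf) ≤ Y → Y ≤ x / L ^ (I.sup Bf) →
        Y / (√x * L ^ 2) ≤ ((SS i.1 i.2.1 (if i.2.2 then 1 else -1) d Y).ncard : ℝ)) := by
    intro i
    by_cases hi : i ∈ I ∧ Odd i.1 ∧ i.2.1 < i.1
    · obtain ⟨Bad, hB1, hB2⟩ := hf i hi.2.1 hi.2.2 x ((le_sup hi.1).trans g1)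
      rw [← hLd] at hB1 hB2
      refine ⟨Bad, hB1, fun _ _ _ d hd hdB hsq hdn Y hY1 hY2 => hB2 d hd hdB hsq hdn Y (le_trans ?_ hY1) (hY2.trans ?_)⟩
      · exact mul_le_mul_of_nonneg_left (pow_le_pow_right₀ hL1 (le_sup hi.1)) (Real.sqrt_nonneg _)
      · exact div_le_div_of_nonneg_left hxr (by positivity) (pow_le_pow_right₀ hL1 (le_sup hi.1))
    · exact ⟨∅, by rw [card_empty, Nat.cast_zero]; positivity, fun h1 h2 h3 => absurd ⟨h1, h2, h3⟩ hi⟩
  choose Bd hBd1 hBd2 using hex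
  refine ⟨I.biUnion Bd, ?_, ?_⟩
  · have h1 : (#(I.biUnion Bd) : ℝ) ≤ ∑ i ∈ I, (#(Bd i) : ℝ) := by exact_mod_cast card_biUnion_le
    have h2 := h1.trans (sum_le_sum fun i _ => hBd1 i)
    rw [sum_const, nsmul_eq_mul] at h2
    refine h2.trans ?_
    have e : x / L ^ U = L * (x / L ^ (U + 1)) := by
      rw [pow_succ]
      field_simp
    rw [e]
    exact mul_le_mul_of_nonneg_right (by linarith) (by positivity)
  · intro d hd hdB hsq n hn hnK m0 hm0 hm1 hdn s hs Y hY1 hY2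
    have hbadi : ∀ i ∈ I, d ∉ Bd i := fun i hi h => hdB (mem_biUnion.2 ⟨i, hi, h⟩)
    obtain ⟨m, rfl⟩ := Int.eq_ofNat_of_zero_le hm0
    have hm2 : m < n := by exact_mod_cast hm1
    have hmem : ∀ b : Bool, (n, m, b) ∈ I := by
      intro b
      rw [hI, mem_product, mem_product]
      exact ⟨mem_range.2 (by omega), mem_range.2 (by simp only; omega), mem_univ _⟩
    rcases hs with rfl | rfl
    · have := hBd2 (n, m, true) (hmem true) hn hm2 d hd (hbadi _ (hmem true)) hsq hdn Y hY1 hY2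
      simpa using this
    · have := hBd2 (n, m, false) (hmem false) hn hm2 d hd (hbadi _ (hmem false)) hsq hdn Y hY1 hY2
      simpa using this

end Pool.Agent.TH204.QF
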