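import Pool.Agent.TH877.UF.Nrm

/-!
Ideals of odd norm of a quadratic field and the elements `m + √d`.
-/

set_option autoImplicit false

namespace Pool.Agent.TH204.QF

open NumberField Module Ideal
open H419R2 Pool.Agent.TH877.UF

variable {K : Type*} [Field K] [NumberField K]

/-- `√d` as an integer of `K` -/
def rt (d : ℕ) (x : K) (hx : x ^ 2 = (d : K)) : 𝓞 K :=
  ⟨x, ⟨Polynomial.X ^ 2 - Polynomial.C (d : ℤ), Polynomial.monic_X_pow_sub_C _ (by norm_num), by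
    rw [← Polynomial.aeval_def]
    simp [hx]⟩⟩

lemma rt_coe (d : ℕ) (x : K) (hx : x ^ 2 = (d : K)) : ((rt d x hx : 𝓞 K) : K) = x := rfl

lemma rt_sq (d : ℕ) (x : K) (hx : x ^ 2 = (d : K)) : rt d x hx ^ 2 = (d : 𝓞 K) := by
  apply RingOfIntegers.ext
  simp [rt_coe, hx]

lemma nosq (d : ℕ) (hd : Squarefree d) (h2 : 2 ≤ d) : ¬ ∃ q : ℚ, q ^ 2 = ((d : ℤ) : ℚ) := by
  apply not_sq_of_squarefree
  · rw [Int.squarefree_natCast]
    exact hd
  · exact_mod_cast h2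

lemma norm_lin (d : ℕ) (hd : Squarefree d) (h2 : 2 ≤ d) (hK : finrank ℚ K = 2) (x : K)
    (hx : x ^ 2 = (d : K)) (u v : ℤ) :
    Algebra.norm ℤ ((u : 𝓞 K) + v * rt d x hx) = u ^ 2 - d * v ^ 2 := by
  have hx' : x ^ 2 = (((d : ℤ)) : K) := by rw [hx]; simp
  have h := norm_coords (nosq d hd h2) hK hx' (u : ℚ) (v : ℚ)
  have h3 : ((Algebra.norm ℤ ((u : 𝓞 K) + v * rt d x hx) : ℤ) : ℚ) = ((u ^ 2 - d * v ^ 2 : ℤ) : ℚ) := by
    rw [Algebra.coe_norm_int]
    have e : ((((u : 𝓞 K) + v * rt d x hx : 𝓞 K)) : K) = (((u : ℚ)) : K) + (((v : ℚ)) : K) * x := by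
      simp [rt_coe]
    rw [e, h]
    push_cast
    ring
  exact_mod_cast h3

/-- integers of `K` have coordinates in `½ ℤ` -/
lemma half (d : ℕ) (hd : Squarefree d) (h2 : 2 ≤ d) (hK : finrank ℚ K = 2) (x : K)
    (hx : x ^ 2 = (d : K)) (α : 𝓞 K) : ∃ a c : ℤ, 2 * α = (a : 𝓞 K) + c * rt d x hx := by
  have hx' : x ^ 2 = (((d : ℤ)) : K) := by rw [hx]; simp
  have hns := nosq d hd h2
  have h2' : (algebraMap (𝓞 K) K) 2 = 2 := map_ofNat _ 2
  obtain ⟨p, q, hpq⟩ := exists_coords hns hK hx' (α : K)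
  have hint : IsIntegral ℤ ((p : K) + (q : K) * x) := by
    rw [← hpq]; exact α.isIntegral_coe
  by_cases hq : q = 0
  · subst hq
    have hp : IsIntegral ℤ p := by
      have h2 : IsIntegral ℤ (algebraMap ℚ K p) := by simpa using hint
      exact (isIntegral_algebraMap_iff (algebraMap ℚ K).injective).1 h2
    obtain ⟨n, hn⟩ := IsIntegrallyClosed.isIntegral_iff.mp hp
    have hn' : (n : ℚ) = p := by simpa using hn
    refine ⟨2 * n, 0, ?_⟩
    apply RingOfIntegers.ext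
    have : ((2 * α : 𝓞 K) : K) = 2 * (α : K) := by simp [h2']
    rw [this, hpq, ← hn']
    simp [h2']
  · obtain ⟨⟨a, ha⟩, b, hb⟩ := two_int_of_integral hns hx' hq hint
    have h3 : ((d : ℤ) : ℚ) * (2 * q) ^ 2 = ((a ^ 2 - 4 * b : ℤ) : ℚ) := by
      push_cast
      rw [ha, hb]; push_cast; ring
    obtain ⟨c, hc⟩ := int_of_squarefree_mul_sq (Int.squarefree_natCast.2 hd) h3
    refine ⟨a, c, ?_⟩
    apply RingOfIntegers.ext
    have e1 : ((2 * α : 𝓞 K) : K) = 2 * (α : K) := by simp [h2']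
    have e2 : ((((a : 𝓞 K)) + c * rt d x hx : 𝓞 K) : K) = (((a : ℚ)) : K) + (((c : ℚ)) : K) * x := by
      simp [rt_coe]
    rw [e1, e2, hpq, ha, hc]
    push_cast
    ring

/-- an ideal of odd norm is `v` times an ideal containing some `u + √d` -/
lemma odd_ideal (d : ℕ) (hd : Squarefree d) (h2 : 2 ≤ d) (hK : finrank ℚ K = 2) (x : K)
    (hx : x ^ 2 = (d : K)) (J : Ideal (𝓞 K)) (hJ : Odd (absNorm J)) :
    ∃ (v : ℕ) (u : ℤ) (B : Ideal (𝓞 K)), 0 < v ∧ J = span {((v : ℕ) : 𝓞 K)} * B ∧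
      ((u : 𝓞 K) + rt d x hx) ∈ B := by
  classical
  -- the coefficients of `√d`
  let V : Ideal ℤ :=
    { carrier := {v | ∃ u : ℤ, ((u : 𝓞 K) + v * rt d x hx) ∈ J}
      zero_mem' := ⟨0, by simp⟩
      add_mem' := by
        rintro a b ⟨u, hu⟩ ⟨u', hu'⟩
        refine ⟨u + u', ?_⟩
        have := J.add_mem hu hu'
        have e : ((u + u' : ℤ) : 𝓞 K) + ((a + b : ℤ) : 𝓞 K) * rt d x hx =
            ((u : 𝓞 K) + a * rt d x hx) + ((u' : 𝓞 K) + b * rt d x hx) := by push_cast; ring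
        rw [e]
        exact this
      smul_mem' := by
        rintro c a ⟨u, hu⟩
        refine ⟨c * u, ?_⟩
        have := J.mul_mem_left (c : 𝓞 K) hu
        have e : ((c * u : ℤ) : 𝓞 K) + ((c • a : ℤ) : 𝓞 K) * rt d x hx =
            (c : 𝓞 K) * ((u : 𝓞 K) + a * rt d x hx) := by
          rw [smul_eq_mul]; push_cast; ring
        rw [e]
        exact this }
  have hN0 : absNorm J ≠ 0 := by
    intro h
    rw [h] at hJ
    exact (Nat.not_odd_zero hJ)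
  have hNJ : ((absNorm J : ℕ) : 𝓞 K) ∈ J := absNorm_mem J
  have hNV : ((absNorm J : ℕ) : ℤ) ∈ V := by
    refine ⟨0, ?_⟩
    have := J.mul_mem_right (rt d x hx) hNJ
    simpa using this
  obtain ⟨w, hw⟩ := (IsPrincipalIdealRing.principal V).principal
  obtain ⟨v, hv⟩ : ∃ v : ℕ, v = w.natAbs := ⟨_, rfl⟩
  have hVv : ∀ a ∈ V, (v : ℤ) ∣ a := by
    intro a ha
    have h3 : a ∈ Submodule.span ℤ {w} := by rw [← hw]; exact ha
    rw [Submodule.mem_span_singleton] at h3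
    obtain ⟨c, hc⟩ := h3
    rw [hv, Int.natAbs_dvd]
    exact ⟨c, by rw [← hc, smul_eq_mul]; ring⟩
  have hvV : (v : ℤ) ∈ V := by
    have h3 : w ∈ V := by
      rw [hw]; exact Submodule.mem_span_singleton_self w
    rcases Int.natAbs_eq w with h | h
    · rw [hv, ← h]; exact h3
    · have : (v : ℤ) = -w := by rw [hv]; omega
      rw [this]
      exact V.neg_mem h3
  have hv0 : 0 < v := by
    rcases Nat.eq_zero_or_pos v with h | h
    · exfalso
      have := hVv _ hNV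
      rw [h] at this
      simp at this
      exact hN0 this
    · exact h
  have hvodd : Odd v := by
    have h3 : (v : ℤ) ∣ ((absNorm J : ℕ) : ℤ) := hVv _ hNV
    have h4 : v ∣ absNorm J := by exact_mod_cast h3
    exact Odd.of_dvd_nat hJ h4
  -- both coordinates are divisible by `v`
  have hboth : ∀ a b : ℤ, ((a : 𝓞 K) + b * rt d x hx) ∈ J → (v : ℤ) ∣ a ∧ (v : ℤ) ∣ b := by
    intro a b hab
    refine ⟨?_, hVv b ⟨a, hab⟩⟩
    apply hVv
    refine ⟨b * d, ?_⟩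
    have h3 := J.mul_mem_left (rt d x hx) hab
    have e : rt d x hx * ((a : 𝓞 K) + b * rt d x hx) = ((b * d : ℤ) : 𝓞 K) + (a : 𝓞 K) * rt d x hx := by
      have h4 := rt_sq d x hx
      push_cast
      linear_combination (b : 𝓞 K) * h4
    rw [e] at h3
    exact h3
  have hle : J ≤ span {((v : ℕ) : 𝓞 K)} := by
    intro α hα
    obtain ⟨a, c, hac⟩ := half d hd h2 hK x hx α
    have h3 : ((a : 𝓞 K) + c * rt d x hx) ∈ J := by
      rw [← hac]
      exact J.mul_mem_left _ hα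
    obtain ⟨⟨a', ha'⟩, ⟨c', hc'⟩⟩ := hboth a c h3
    obtain ⟨j, hj⟩ := hvodd
    rw [mem_span_singleton]
    refine ⟨α - j * ((a' : 𝓞 K) + c' * rt d x hx), ?_⟩
    have hvr : ((v : ℕ) : 𝓞 K) = 2 * j + 1 := by rw [hj]; push_cast; ring
    have h5 : 2 * α = ((v : ℕ) : 𝓞 K) * ((a' : 𝓞 K) + c' * rt d x hx) := by
      rw [hac, ha', hc']
      push_cast
      ring
    have h6 : (j : 𝓞 K) * (2 * α) = j * (((v : ℕ) : 𝓞 K) * ((a' : 𝓞 K) + c' * rt d x hx)) := by rw [h5]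
    rw [mul_sub]
    have h7 : ((v : ℕ) : 𝓞 K) * α = 2 * j * α + α := by rw [hvr]; ring
    rw [h7]
    linear_combination (-1 : 𝓞 K) * h6
  obtain ⟨B, hB⟩ := Ideal.dvd_iff_le.2 hle
  obtain ⟨u0, hu0⟩ := hvV
  obtain ⟨⟨u, hu⟩, -⟩ := hboth u0 v hu0
  refine ⟨v, u, B, hv0, hB, ?_⟩
  have h3 : ((v : ℕ) : 𝓞 K) * ((u : 𝓞 K) + rt d x hx) ∈ span {((v : ℕ) : 𝓞 K)} * B := by
    rw [← hB]
    have e : ((v : ℕ) : 𝓞 K) * ((u : 𝓞 K) + rt d x hx) = (u0 : 𝓞 K) + ((v : ℤ) : 𝓞 K) * rt d x hx := by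
      rw [hu]
      push_cast
      ring
    rw [e]
    exact hu0
  rw [mem_span_singleton_mul] at h3
  obtain ⟨z, hz, he⟩ := h3
  have hvne : ((v : ℕ) : 𝓞 K) ≠ 0 := by exact_mod_cast hv0.ne'
  rw [mul_left_cancel₀ hvne he] at hz
  exact hz

end Pool.Agent.TH204.QF
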