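import Pool.Agent.TH204.QF.Q3
import Pool.Agent.TH204.QF.Q4

/-!
From primes `±(m² - d)/n` to prime ideals in the classes of small ideals.
-/

set_option autoImplicit false

namespace Pool.Agent.TH204.QF

open NumberField Module Ideal

section
variable {K : Type*} [Field K] [NumberField K]

/-- `(x) 𝔮 = (y) 𝔞` where the norm of `x y` has the sign of `s` -/
def Cls (s : ℤ) (𝔞 𝔮 : Ideal (𝓞 K)) : Prop :=
  ∃ x y : 𝓞 K, 0 < s * (Algebra.norm ℤ x * Algebra.norm ℤ y) ∧ span {x} * 𝔮 = span {y} * 𝔞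

/-- prime ideals of prime norm at most `Y` in the class of `𝔞` -/
def PI (s : ℤ) (𝔞 : Ideal (𝓞 K)) (Y : ℝ) : Set (Ideal (𝓞 K)) :=
  {𝔮 | 𝔮.IsPrime ∧ (absNorm 𝔮).Prime ∧ (absNorm 𝔮 : ℝ) ≤ Y ∧ Cls s 𝔞 𝔮}

lemma PI_fin (s : ℤ) (𝔞 : Ideal (𝓞 K)) (Y : ℝ) : (PI s 𝔞 Y).Finite := by
  refine (Ideal.finite_setOf_absNorm_le (S := 𝓞 K) ⌊Y⌋₊).subset ?_
  rintro 𝔮 ⟨-, -, h, -⟩
  exact Nat.le_floor h

theorem ideal_side (d : ℕ) (hd : Squarefree d) (h2 : 2 ≤ d) (hK : finrank ℚ K = 2) (x : K)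
    (hx : x ^ 2 = (d : K)) (k : ℕ) (𝔞 : Ideal (𝓞 K)) (hodd : Odd (absNorm 𝔞)) (hk : absNorm 𝔞 ≤ k) :
    ∃ (n : ℕ) (m0 : ℤ), Odd n ∧ n ≤ k ∧ 0 ≤ m0 ∧ m0 < n ∧ (n : ℤ) ∣ m0 ^ 2 - d ∧
      ∀ s : ℤ, s = 1 ∨ s = -1 → ∀ Y : ℝ, (SS n m0 s d Y).ncard ≤ (PI s 𝔞 Y).ncard := by
  classical
  obtain ⟨na, hna⟩ : ∃ na, na = absNorm 𝔞 := ⟨_, rfl⟩
  rw [← hna] at hodd hk
  have hna0 : 0 < na := hodd.pos
  have hnorm : ∀ m : ℤ, absNorm (span {((m : 𝓞 K) + rt d x hx)}) = (m ^ 2 - (d : ℤ)).natAbs := by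
    intro m
    rw [absNorm_span_singleton]
    have := norm_lin d hd h2 hK x hx m 1
    rw [Int.cast_one, one_mul] at this
    rw [this]
    congr 1
    ring
  have hnormn : ∀ j : ℕ, Algebra.norm ℤ ((j : ℕ) : 𝓞 K) = (j : ℤ) ^ 2 := by
    intro j
    have := norm_lin d hd h2 hK x hx j 0
    simpa using this
  have hmem : ((na : ℕ) : 𝓞 K) ∈ 𝔞 := by rw [hna]; exact absNorm_mem 𝔞
  obtain ⟨J, hJ⟩ := Ideal.dvd_span_singleton.2 hmem
  have hJn : absNorm J = na := by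
    have h3 := congrArg absNorm hJ
    rw [map_mul, absNorm_span_singleton, hnormn, ← hna, Int.natAbs_pow, Int.natAbs_natCast, sq] at h3
    exact (Nat.eq_of_mul_eq_mul_left hna0 h3).symm
  obtain ⟨v, u, B, hv0, hJB, huB⟩ := odd_ideal d hd h2 hK x hx J (by rw [hJn]; exact hodd)
  obtain ⟨n, hn⟩ : ∃ n, n = absNorm B := ⟨_, rfl⟩
  have hndvd : n ∣ na := by
    rw [← hJn, hJB, map_mul, hn]
    exact dvd_mul_left _ _
  have hnodd : Odd n := Odd.of_dvd_nat hodd hndvd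
  have hn0 : 0 < n := hnodd.pos
  have hnz : (0 : ℤ) < n := by exact_mod_cast hn0
  have hnB : ((n : ℕ) : 𝓞 K) ∈ B := by rw [hn]; exact absNorm_mem B
  have hm0B : ((u % n : ℤ) : 𝓞 K) + rt d x hx ∈ B := by
    have e : ((u % n : ℤ) : 𝓞 K) + rt d x hx = ((u : 𝓞 K) + rt d x hx) - ((u / n : ℤ) : 𝓞 K) * ((n : ℕ) : 𝓞 K) := by
      have h3 : (u % n : ℤ) = u - (u / n) * n := by
        have := Int.emod_add_mul_ediv u n
        linarith
      rw [h3]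
      push_cast
      ring
    rw [e]
    exact B.sub_mem huB (B.mul_mem_left _ hnB)
  refine ⟨n, u % n, hnodd, (Nat.le_of_dvd hna0 hndvd).trans hk, Int.emod_nonneg _ hnz.ne',
    Int.emod_lt_of_pos _ hnz, ?_, fun s hs Y => ?_⟩
  · have h3 : absNorm B ∣ absNorm (span {(((u % n : ℤ) : 𝓞 K) + rt d x hx)}) :=
      absNorm_dvd_absNorm_of_le ((span_singleton_le_iff_mem B).2 hm0B)
    rw [hnorm, ← hn] at h3
    exact Int.natCast_dvd.2 h3
  · have hss : s * s = 1 := by rcases hs with rfl | rfl <;> norm_num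
    have hex : ∀ m ∈ SS n (u % n) s d Y, ∃ 𝔮 : Ideal (𝓞 K), 𝔮 ∈ PI s 𝔞 Y ∧
        s * ((m : ℤ) ^ 2 - d) = n * (absNorm 𝔮 : ℤ) := by
      rintro m ⟨hm, ⟨j, hj⟩, q, hq, hqY, he⟩
      have hmB : ((m : ℤ) : 𝓞 K) + rt d x hx ∈ B := by
        have e : ((m : ℤ) : 𝓞 K) + rt d x hx = (((u % n : ℤ) : 𝓞 K) + rt d x hx) + ((j : ℤ) : 𝓞 K) * ((n : ℕ) : 𝓞 K) := by
          have h3 : (m : ℤ) = u % n + n * j := by linarith
          rw [h3]
          push_cast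
          ring
        rw [e]
        exact B.add_mem hm0B (B.mul_mem_left _ hnB)
      obtain ⟨𝔮, hq'⟩ := Ideal.dvd_span_singleton.2 hmB
      have habs : ((m : ℤ) ^ 2 - (d : ℤ)).natAbs = n * q := by
        have h3 : (s * ((m : ℤ) ^ 2 - d)).natAbs = (n * q : ℤ).natAbs := by rw [he]
        rw [Int.natAbs_mul] at h3
        have h4 : s.natAbs = 1 := by rcases hs with rfl | rfl <;> rfl
        rw [h4, one_mul] at h3
        rw [h3]
        have : ((n : ℤ) * q) = ((n * q : ℕ) : ℤ) := by push_cast; ring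
        rw [this, Int.natAbs_natCast]
      have hNq : absNorm 𝔮 = q := by
        have h3 := congrArg absNorm hq'
        rw [map_mul, hnorm, habs, ← hn] at h3
        exact (Nat.eq_of_mul_eq_mul_left hn0 h3).symm
      refine ⟨𝔮, ⟨?_, by rw [hNq]; exact hq, by rw [hNq]; exact hqY, ?_⟩, by rw [hNq]; exact he⟩
      · apply isPrime_of_irreducible_absNorm
        rw [hNq]
        exact hq
      · refine ⟨((na : ℕ) : 𝓞 K), ((v : ℕ) : 𝓞 K) * (((m : ℤ) : 𝓞 K) + rt d x hx), ?_, ?_⟩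
        · rw [map_mul, hnormn, hnormn]
          have h4 := norm_lin d hd h2 hK x hx m 1
          rw [Int.cast_one, one_mul] at h4
          rw [h4]
          have h5 : (0 : ℤ) < n * q := by
            have := hq.pos
            positivity
          have h6 : (0 : ℤ) < (na : ℤ) ^ 2 * (v : ℤ) ^ 2 := by positivity
          have e : s * ((na : ℤ) ^ 2 * ((v : ℤ) ^ 2 * ((m : ℤ) ^ 2 - d * 1 ^ 2))) =
              ((na : ℤ) ^ 2 * (v : ℤ) ^ 2) * (s * ((m : ℤ) ^ 2 - d)) := by ring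
          rw [e, he]
          exact mul_pos h6 h5
        · rw [hJ, hJB, ← span_singleton_mul_span_singleton, hq']
          ring
    choose! f hf1 hf2 using hex
    have hinj : Set.InjOn f (SS n (u % n) s d Y) := by
      intro m hm m' hm' he
      have h3 := hf2 m hm
      have h4 := hf2 m' hm'
      rw [he, ← h4] at h3
      have h5 : (m : ℤ) ^ 2 = (m' : ℤ) ^ 2 := by
        have : s * (s * ((m : ℤ) ^ 2 - d)) = s * (s * ((m' : ℤ) ^ 2 - d)) := by rw [h3]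
        rw [← mul_assoc, ← mul_assoc, hss, one_mul, one_mul] at this
        linarith
      have h6 : m ^ 2 = m' ^ 2 := by exact_mod_cast h5
      exact (Nat.pow_left_injective (by norm_num : (2 : ℕ) ≠ 0)) h6
    rw [← hinj.ncard_image]
    refine Set.ncard_le_ncard ?_ (PI_fin s 𝔞 Y)
    rintro _ ⟨m, hm, rfl⟩
    exact hf1 m hm

end

/-- the property of `d` with respect to a bound `x` -/
def GoodX (k B x d : ℕ) : Prop :=
  ∀ (K : Type) [Field K] [NumberField K], finrank ℚ K = 2 → (∃ r : K, r ^ 2 = (d : K)) →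
    ∀ 𝔞 : Ideal (𝓞 K), Odd (absNorm 𝔞) → absNorm 𝔞 ≤ k → ∀ s : ℤ, s = 1 ∨ s = -1 →
    ∀ Y : ℝ, √x * Real.log x ^ B ≤ Y → Y ≤ x / Real.log x ^ B →
      Y / (√x * Real.log x ^ 2) ≤ ((PI s 𝔞 Y).ncard : ℝ)

theorem goodX (k U : ℕ) : ∃ B X0 : ℕ, ∀ x : ℕ, X0 ≤ x → ∃ Bad : Finset ℕ,
    (Bad.card : ℝ) ≤ x / Real.log x ^ U ∧
    ∀ d : ℕ, 2 ≤ d → d ≤ x → d ∉ Bad → Squarefree d → GoodX k B x d := by
  obtain ⟨B, X0, h⟩ := allc k U
  refine ⟨B, X0, fun x hx => ?_⟩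
  obtain ⟨Bad, h1, h2⟩ := h x hx
  refine ⟨Bad, h1, fun d hd2 hdx hdB hsq => ?_⟩
  intro K _ _ hK ⟨r, hr⟩ 𝔞 hodd hk s hs Y hY1 hY2
  obtain ⟨n, m0, a1, a2, a3, a4, a5, a6⟩ := ideal_side d hsq hd2 hK r hr k 𝔞 hodd hk
  refine (h2 d hdx hdB hsq n a1 a2 m0 a3 a4 a5 s hs Y hY1 hY2).trans ?_
  exact_mod_cast a6 s hs Y

end Pool.Agent.TH204.QF
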