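import Pool.Agent.TH204.QF.Q5

/-!
All `d` up to `X`: dyadic ranges.
-/

set_option autoImplicit false

namespace Pool.Agent.TH204.QF

open NumberField Module Ideal Filter
open Pool.Agent.TH204.WR (evt_log_ge evt_log_pow)

/-- every class of an ideal of odd norm at most `k` contains many prime ideals of norm at most `Y`,
for all `Y` between `√d (log d)^B` and `d / (log d)^B` -/
def Good (k B d : ℕ) : Prop :=
  ∀ (K : Type) [Field K] [NumberField K], finrank ℚ K = 2 → (∃ r : K, r ^ 2 = (d : K)) →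
    ∀ 𝔞 : Ideal (𝓞 K), Odd (absNorm 𝔞) → absNorm 𝔞 ≤ k → ∀ s : ℤ, s = 1 ∨ s = -1 →
    ∀ Y : ℝ, √d * Real.log d ^ B ≤ Y → Y ≤ d / Real.log d ^ B →
      Y / (√d * Real.log d ^ 3) ≤ ((PI s 𝔞 Y).ncard : ℝ)

lemma good_of (k B x d : ℕ) (hd : d ≤ x) (hx : x ≤ 2 * d) (hL : 8 ≤ Real.log d) (h : GoodX k B x d) :
    Good k (2 * B + 1) d := by
  intro K _ _ hK hr 𝔞 hodd hk s hs Y hY1 hY2
  obtain ⟨l, hl⟩ : ∃ l, l = Real.log d := ⟨_, rfl⟩
  obtain ⟨L, hLd⟩ : ∃ L, L = Real.log x := ⟨_, rfl⟩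
  rw [← hl] at hL hY1 hY2 ⊢
  have hd0 : 0 < d := by
    rcases Nat.eq_zero_or_pos d with h0 | h0
    · rw [h0, Nat.cast_zero, Real.log_zero] at hl
      linarith
    · exact h0
  have hdr : (0 : ℝ) < d := by exact_mod_cast hd0
  have hdx : (d : ℝ) ≤ x := by exact_mod_cast hd
  have hxd : (x : ℝ) ≤ 2 * d := by exact_mod_cast hx
  have hxr : (0 : ℝ) < x := by linarith
  have hlL : l ≤ L := by rw [hl, hLd]; exact Real.log_le_log hdr hdx
  have hLl : L ≤ 2 * l := by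
    have h1 : L ≤ Real.log (2 * d) := by rw [hLd]; exact Real.log_le_log hxr hxd
    rw [Real.log_mul (by norm_num) hdr.ne', ← hl] at h1
    have := Real.log_two_lt_d9
    linarith
  have hl0 : 0 < l := by linarith
  have hL0 : 0 < L := by linarith
  have hsd : 0 < √(d : ℝ) := Real.sqrt_pos.2 hdr
  have hsx : 0 < √(x : ℝ) := Real.sqrt_pos.2 hxr
  have hss : √(x : ℝ) ≤ 2 * √d := by
    have h1 : √(x : ℝ) ≤ √(2 ^ 2 * d) := Real.sqrt_le_sqrt (by linarith)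
    rw [Real.sqrt_mul (by norm_num), Real.sqrt_sq (by norm_num)] at h1
    exact h1
  have hLB : L ^ B ≤ l ^ (2 * B) := by
    calc L ^ B ≤ (2 * l) ^ B := pow_le_pow_left₀ hL0.le hLl _
      _ ≤ (l * l) ^ B := pow_le_pow_left₀ (by positivity) (by nlinarith) _
      _ = l ^ (2 * B) := by rw [mul_comm 2 B, pow_mul']; ring
  have hY0 : 0 ≤ Y := le_trans (by positivity) hY1
  have h1 := h K hK hr 𝔞 hodd hk s hs Y (by
    rw [← hLd]
    refine le_trans ?_ hY1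
    have e : √(d : ℝ) * l ^ (2 * B + 1) = (√d * l) * l ^ (2 * B) := by ring
    rw [e]
    apply mul_le_mul _ hLB (by positivity) (by positivity)
    nlinarith) (by
    rw [← hLd]
    refine hY2.trans ?_
    apply div_le_div₀ hxr.le hdx (by positivity)
    refine hLB.trans (pow_le_pow_right₀ (by linarith) (by omega)))
  rw [← hLd] at h1
  refine le_trans ?_ h1
  apply div_le_div_of_nonneg_left hY0 (by positivity)
  calc √(x : ℝ) * L ^ 2 ≤ (2 * √d) * (2 * l) ^ 2 :=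
        mul_le_mul hss (pow_le_pow_left₀ hL0.le hLl _) (by positivity) (by positivity)
    _ = √d * l ^ 2 * 8 := by ring
    _ ≤ √d * l ^ 2 * l := mul_le_mul_of_nonneg_left hL (by positivity)
    _ = √d * l ^ 3 := by ring

theorem main (k U : ℕ) : ∃ B X0 : ℕ, ∀ X : ℕ, X0 ≤ X →
    ({d : ℕ | 2 ≤ d ∧ d ≤ X ∧ Squarefree d ∧ ¬ Good k B d}.ncard : ℝ) ≤ X / Real.log X ^ U := by
  classical
  obtain ⟨B, X1, h⟩ := goodX k (U + 1)
  obtain ⟨X2, hX2⟩ := eventually_atTop.1 (evt_log_ge (2 ^ (U + 5)))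
  obtain ⟨X3, hX3⟩ := eventually_atTop.1 (evt_log_pow (U + 2) (1 / 2) (by norm_num))
  refine ⟨2 * B + 1, max (max (X1 ^ 2) X2) X3, fun X hX => ?_⟩
  have g1 : X1 ^ 2 ≤ X := le_trans (le_trans (le_max_left _ _) (le_max_left _ _)) hX
  have hL := hX2 X (le_trans (le_trans (le_max_right _ _) (le_max_left _ _)) hX)
  have hR := hX3 X (le_trans (le_max_right _ _) hX)
  clear hX2 hX3
  rw [← Real.sqrt_eq_rpow] at hR
  obtain ⟨L, hLd⟩ : ∃ L, L = Real.log X := ⟨_, rfl⟩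
  rw [← hLd] at hL hR ⊢
  have h32 : (32 : ℝ) ≤ 2 ^ (U + 5) := by
    have h1 : (1 : ℝ) ≤ 2 ^ U := one_le_pow₀ (by norm_num)
    have e : (2 : ℝ) ^ (U + 5) = 2 ^ U * 32 := by ring
    rw [e]
    linarith
  have hL32 : 32 ≤ L := h32.trans hL
  have hL0 : 0 < L := by linarith
  have hL1 : 1 ≤ L := by linarith
  have hs0 : 0 ≤ √(X : ℝ) := Real.sqrt_nonneg _
  have hs1 : 1 ≤ √(X : ℝ) := (one_le_pow₀ hL1).trans hR
  have hXs : √(X : ℝ) * √X = X := Real.mul_self_sqrt (Nat.cast_nonneg _)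
  have hX1r : (X1 : ℝ) ≤ √X := by
    apply Real.le_sqrt_of_sq_le
    exact_mod_cast g1
  have hXr : (0 : ℝ) < X := by rw [← hXs]; positivity
  -- the bad set of level `j`
  have hex : ∀ j : ℕ, ∃ Bad : Finset ℕ, (X1 ≤ 2 ^ j → (Bad.card : ℝ) ≤ (2 ^ j : ℕ) / Real.log (2 ^ j : ℕ) ^ (U + 1) ∧
      ∀ d : ℕ, 2 ≤ d → d ≤ 2 ^ j → d ∉ Bad → Squarefree d → GoodX k B (2 ^ j) d) := by
    intro j
    by_cases hj : X1 ≤ 2 ^ j
    · obtain ⟨Bad, h1, h2⟩ := h (2 ^ j) hj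
      exact ⟨Bad, fun _ => ⟨h1, h2⟩⟩
    · exact ⟨∅, fun h => absurd h hj⟩
  choose Bd hBd using hex
  -- the levels
  obtain ⟨I, hI⟩ : ∃ I : Finset ℕ, I = (Finset.range (Nat.clog 2 X + 1)).filter (fun j => √(X : ℝ) ≤ ((2 ^ j : ℕ) : ℝ)) := ⟨_, rfl⟩
  have hsub : {d : ℕ | 2 ≤ d ∧ d ≤ X ∧ Squarefree d ∧ ¬ Good k (2 * B + 1) d} ⊆
      (((Finset.range (X + 1)).filter (fun d : ℕ => (d : ℝ) ≤ √X)) ∪ I.biUnion Bd : Finset ℕ) := by
    rintro d ⟨h1, h2, h3, h4⟩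
    rw [Finset.coe_union, Set.mem_union, Finset.mem_coe, Finset.mem_coe]
    by_contra hc
    rw [not_or, Finset.mem_filter, not_and, Finset.mem_biUnion] at hc
    obtain ⟨hc1, hc2⟩ := hc
    have hdS := not_le.1 (hc1 (Finset.mem_range.2 (by omega)))
    apply h4
    have hj1 : d ≤ 2 ^ Nat.clog 2 d := Nat.le_pow_clog (by norm_num) d
    have hj2 : 2 ^ Nat.clog 2 d ≤ 2 * d := by
      have h5 := Nat.pow_pred_clog_lt_self (b := 2) (by norm_num) (show 1 < d by omega)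
      have h6 : 0 < Nat.clog 2 d := Nat.clog_pos (by norm_num) h1
      obtain ⟨c, hc⟩ : ∃ c, Nat.clog 2 d = c + 1 := ⟨Nat.clog 2 d - 1, by omega⟩
      rw [hc] at h5 ⊢
      rw [Nat.pred_succ] at h5
      rw [pow_succ]
      omega
    have hjr : (d : ℝ) ≤ ((2 ^ Nat.clog 2 d : ℕ) : ℝ) := by exact_mod_cast hj1
    have hX1j : X1 ≤ 2 ^ Nat.clog 2 d := by
      have : (X1 : ℝ) ≤ ((2 ^ Nat.clog 2 d : ℕ) : ℝ) := by linarith
      exact_mod_cast this
    have hjI : Nat.clog 2 d ∈ I := by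
      rw [hI, Finset.mem_filter, Finset.mem_range]
      refine ⟨?_, by linarith⟩
      have := Nat.clog_mono_right 2 h2
      omega
    have hnb : d ∉ Bd (Nat.clog 2 d) := fun hd => hc2 ⟨_, hjI, hd⟩
    refine good_of k B (2 ^ Nat.clog 2 d) d hj1 hj2 ?_ ((hBd _ hX1j).2 d h1 hj1 hnb h3)
    have h7 : L / 2 ≤ Real.log d := by
      have h8 : Real.log (√(X : ℝ)) ≤ Real.log d := Real.log_le_log (by linarith) hdS.le
      rw [Real.log_sqrt hXr.le, ← hLd] at h8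
      exact h8
    linarith
  have hcard : ({d : ℕ | 2 ≤ d ∧ d ≤ X ∧ Squarefree d ∧ ¬ Good k (2 * B + 1) d}.ncard : ℝ) ≤
      ((((Finset.range (X + 1)).filter (fun d : ℕ => (d : ℝ) ≤ √X)) ∪ I.biUnion Bd : Finset ℕ).card : ℝ) := by
    rw [← Set.ncard_coe_finset]
    exact_mod_cast Set.ncard_le_ncard hsub (Finset.finite_toSet _)
  refine hcard.trans ?_
  have hc1 : ((((Finset.range (X + 1)).filter (fun d : ℕ => (d : ℝ) ≤ √X)) ∪ I.biUnion Bd : Finset ℕ).card : ℝ) ≤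
      (((Finset.range (X + 1)).filter (fun d : ℕ => (d : ℝ) ≤ √X)).card : ℝ) + ((I.biUnion Bd).card : ℝ) := by
    exact_mod_cast Finset.card_union_le _ _
  have hc2 := small_card X (√X) hs0
  have hc3 : ((I.biUnion Bd).card : ℝ) ≤ ∑ j ∈ I, ((Bd j).card : ℝ) := by
    exact_mod_cast Finset.card_biUnion_le
  have hterm : ∀ j ∈ I, ((Bd j).card : ℝ) ≤ (2 : ℝ) ^ j * (2 ^ (U + 1) / L ^ (U + 1)) := by
    intro j hj
    rw [hI, Finset.mem_filter] at hj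
    have hjX1 : X1 ≤ 2 ^ j := by
      have : (X1 : ℝ) ≤ ((2 ^ j : ℕ) : ℝ) := by linarith [hj.2]
      exact_mod_cast this
    refine ((hBd j hjX1).1).trans ?_
    have h7 : L / 2 ≤ Real.log ((2 ^ j : ℕ) : ℝ) := by
      have h8 : Real.log (√(X : ℝ)) ≤ Real.log ((2 ^ j : ℕ) : ℝ) := Real.log_le_log (by linarith) hj.2
      rw [Real.log_sqrt hXr.le, ← hLd] at h8
      exact h8
    have h8 : (L / 2) ^ (U + 1) ≤ Real.log ((2 ^ j : ℕ) : ℝ) ^ (U + 1) :=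
      pow_le_pow_left₀ (by positivity) h7 _
    have h9 : ((2 ^ j : ℕ) : ℝ) / Real.log ((2 ^ j : ℕ) : ℝ) ^ (U + 1) ≤ ((2 ^ j : ℕ) : ℝ) / (L / 2) ^ (U + 1) := by
      apply div_le_div_of_nonneg_left (by positivity) (by positivity) h8
    refine h9.trans (le_of_eq ?_)
    rw [div_pow]
    push_cast
    field_simp
  have hc4 := Finset.sum_le_sum hterm
  rw [← Finset.sum_mul] at hc4
  have hgeo : ∑ j ∈ I, (2 : ℝ) ^ j ≤ 4 * X := by
    have h5 : ∑ j ∈ I, (2 : ℝ) ^ j ≤ ∑ j ∈ Finset.range (Nat.clog 2 X + 1), (2 : ℝ) ^ j := by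
      apply Finset.sum_le_sum_of_subset_of_nonneg
      · rw [hI]; exact Finset.filter_subset _ _
      · intro i _ _; positivity
    refine h5.trans ?_
    rw [geom_sum_eq (by norm_num)]
    have hX2' : 1 < X := by
      have h6 : (1 : ℝ) < X := by
        rw [← hXs]
        have h7 : (32 : ℝ) ≤ √X := by
          refine le_trans ?_ hR
          exact hL32.trans (le_self_pow₀ hL1 (by omega))
        nlinarith
      exact_mod_cast h6
    have h6 := Nat.pow_pred_clog_lt_self (b := 2) (by norm_num) hX2'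
    have h7 : 0 < Nat.clog 2 X := Nat.clog_pos (by norm_num) hX2'
    obtain ⟨c, hc⟩ : ∃ c, Nat.clog 2 X = c + 1 := ⟨Nat.clog 2 X - 1, by omega⟩
    rw [hc] at h6 ⊢
    rw [Nat.pred_succ] at h6
    have h8 : (2 : ℝ) ^ c ≤ X := by exact_mod_cast h6.le
    have e : (2 : ℝ) ^ (c + 1 + 1) = 4 * 2 ^ c := by ring
    rw [e]
    have : (4 * (2 : ℝ) ^ c - 1) / (2 - 1) = 4 * 2 ^ c - 1 := by norm_num
    rw [this]
    linarith
  have hpos : 0 ≤ (2 : ℝ) ^ (U + 1) / L ^ (U + 1) := by positivity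
  have hc5 : (∑ j ∈ I, (2 : ℝ) ^ j) * (2 ^ (U + 1) / L ^ (U + 1)) ≤ 4 * X * (2 ^ (U + 1) / L ^ (U + 1)) :=
    mul_le_mul_of_nonneg_right hgeo hpos
  -- sums
  obtain ⟨T, hT⟩ : ∃ T, T = X / L ^ U := ⟨_, rfl⟩
  have hT0 : 0 ≤ T := by rw [hT]; positivity
  have ha : 4 * (X : ℝ) * (2 ^ (U + 1) / L ^ (U + 1)) ≤ T / 4 := by
    have e : 4 * (X : ℝ) * (2 ^ (U + 1) / L ^ (U + 1)) = T * (2 ^ (U + 3) / L) := by
      rw [hT]
      field_simp
      ring
    rw [e]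
    have h5 : (2 : ℝ) ^ (U + 3) / L ≤ 1 / 4 := by
      rw [div_le_div_iff₀ hL0 (by norm_num)]
      have e2 : (2 : ℝ) ^ (U + 3) * 4 = 2 ^ (U + 5) := by ring
      rw [e2]
      linarith
    have := mul_le_mul_of_nonneg_left h5 hT0
    linarith
  have hb : √(X : ℝ) + 1 ≤ T / 2 := by
    have h5 : √(X : ℝ) * L ^ 2 ≤ T := by
      rw [hT, le_div_iff₀ (by positivity)]
      calc √(X : ℝ) * L ^ 2 * L ^ U = √X * L ^ (U + 2) := by ring
        _ ≤ √X * √X := mul_le_mul_of_nonneg_left hR hs0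
        _ = X := hXs
    have h6 : (4 : ℝ) ≤ L ^ 2 := by nlinarith
    have h7 := mul_le_mul_of_nonneg_left h6 hs0
    linarith
  rw [← hT]
  linarith

end Pool.Agent.TH204.QF
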